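import Pool.Agent.helper5.IH.Spec

set_option autoImplicit false

namespace Pool.Agent.IH
open Finset CT SYM

theorem MIN_pos (V : Type) [Fintype V] [DecidableEq V] (G : SimpleGraph V) (τ : G.Dart → G.Dart)
    (h4 : FourRegular G) (hc : G.Connected) : 1 ≤ nci τ := by
  classical
  obtain ⟨u⟩ := hc.nonempty
  have h := h4 u
  have hne : Nonempty {w // G.Adj u w} := by
    by_contra hcon
    rw [not_nonempty_iff] at hcon
    rw [Nat.card_of_isEmpty] at h
    exact absurd h (by norm_num)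
  obtain ⟨w, hw⟩ := hne
  have hfin : Finite (Cir (fun d : G.Dart => d.symm) τ) := by
    unfold Cir
    infer_instance
  have hn : Nonempty {c : Cir (fun d : G.Dart => d.symm) τ //
      ∀ d : G.Dart, False → cir (fun d : G.Dart => d.symm) τ d ≠ c} :=
    ⟨⟨cir (fun d : G.Dart => d.symm) τ ⟨(u, w), hw⟩, fun _ h => absurd h id⟩⟩
  have hpos : 0 < Nat.card {c : Cir (fun d : G.Dart => d.symm) τ //
      ∀ d : G.Dart, False → cir (fun d : G.Dart => d.symm) τ d ≠ c} := Nat.card_pos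
  exact hpos

theorem MIN (hMRG : MRG_stmt) : MIN_stmt := by
  intro V _ _ G τ h4 hc hτ
  have key : ∀ (n : ℕ) (τ : G.Dart → G.Dart), IsTS τ → nci τ = n + 1 →
      ∃ (τ' : G.Dart → G.Dart) (S : Finset V), IsTS τ' ∧ nci τ' = 1 ∧
        (∀ d : G.Dart, d.fst ∉ S → τ d = τ' d) ∧ S.card + 1 ≤ n + 1 := by
    intro n
    induction n with
    | zero =>
      intro τ hτ hn
      exact ⟨τ, ∅, hτ, hn, fun _ _ => rfl, by simp⟩
    | succ n ih =>
      intro τ hτ hn
      obtain ⟨v, τ₁, h1, h2, h3⟩ := hMRG V G τ h4 hc hτ (by omega)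
      obtain ⟨τ', S, h5, h6, h7, h8⟩ := ih τ₁ h1 (by omega)
      refine ⟨τ', insert v S, h5, h6, fun d hd => ?_, ?_⟩
      · rw [Finset.mem_insert, not_or] at hd
        rw [← h2 d hd.1, h7 d hd.2]
      · have := Finset.card_insert_le v S
        omega
  have hp := MIN_pos V G τ h4 hc
  obtain ⟨τ', S, h1, h2, h3, h4'⟩ := key (nci τ - 1) τ hτ (by omega)
  exact ⟨τ', S, h1, h2, h3, by omega⟩

end Pool.Agent.IH
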